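import Mathlib

namespace Pool.Agent.Results.MP_b969c4_an.Disconnected

open Filter Topology Set Metric

/-- Montel normality of a family on `N`, the limit `∞` allowed -/
def NormalOn (𝓕 : Set (ℂ → ℂ)) (N : Set ℂ) : Prop :=
  ∀ F : ℕ → ℂ → ℂ, (∀ k, F k ∈ 𝓕) → ∃ φ : ℕ → ℕ, StrictMono φ ∧
    ((∃ g : ℂ → ℂ, AnalyticOnNhd ℂ g N ∧
        ∀ K ⊆ N, IsCompact K → TendstoUniformlyOn (fun k => F (φ k)) g atTop K) ∨
      ∀ K ⊆ N, IsCompact K → ∀ R : ℝ, ∀ᶠ k in atTop, ∀ z ∈ K, R ≤ ‖F (φ k) z‖)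

/-- the set of MacLane points of `f` on `G` -/
def MacLane (G : Set ℂ) (f : ℂ → ℂ) : Set ℂ :=
  {z₀ | ∃ N : Set ℂ, IsOpen N ∧ z₀ ∈ N ∧ N ⊆ G ∧ NormalOn (range fun n : ℕ => iteratedDeriv n f) N}

noncomputable def f (z : ℂ) : ℂ := (1 - z)⁻¹ - (-1 - z)⁻¹

noncomputable def D (n : ℕ) (z : ℂ) : ℂ :=
  (n.factorial : ℂ) * (((1 - z)⁻¹) ^ (n + 1) - ((-1 - z)⁻¹) ^ (n + 1))

lemma ne1 {z : ℂ} (hz : z ∈ ball (0 : ℂ) 1) : 1 - z ≠ 0 := by
  intro h
  have : z = 1 := by linear_combination -h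
  simp [this] at hz

lemma ne2 {z : ℂ} (hz : z ∈ ball (0 : ℂ) 1) : -1 - z ≠ 0 := by
  intro h
  have : z = -1 := by linear_combination -h
  simp [this] at hz

lemma hd (c : ℂ) (n : ℕ) {z : ℂ} (h : c - z ≠ 0) :
    HasDerivAt (fun w : ℂ => ((c - w)⁻¹) ^ (n + 1)) ((n + 1 : ℂ) * ((c - z)⁻¹) ^ (n + 2)) z := by
  have h1 : HasDerivAt (fun w : ℂ => c - w) (-1) z := by
    simpa using (hasDerivAt_id z).const_sub c
  have h2 := (h1.inv h).fun_pow (n + 1)
  refine h2.congr_deriv ?_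
  simp only [Pi.inv_apply, Nat.add_sub_cancel]
  push_cast
  rw [neg_neg, one_div, ← inv_pow]
  ring

lemma hD (n : ℕ) {z : ℂ} (hz : z ∈ ball (0 : ℂ) 1) : HasDerivAt (D n) (D (n + 1) z) z := by
  have := ((hd 1 n (ne1 hz)).sub (hd (-1) n (ne2 hz))).const_mul (n.factorial : ℂ)
  refine this.congr_deriv ?_
  simp only [D, Nat.factorial_succ]
  push_cast
  ring

lemma iter (n : ℕ) : ∀ z ∈ ball (0 : ℂ) 1, iteratedDeriv n f z = D n z := by
  induction n with
  | zero => intro z _; simp [f, D]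
  | succ n ih =>
    intro z hz
    rw [iteratedDeriv_succ]
    have : iteratedDeriv n f =ᶠ[𝓝 z] D n :=
      Filter.eventually_of_mem (isOpen_ball.mem_nhds hz) ih
    rw [this.deriv_eq, (hD n hz).deriv]

lemma anD (n : ℕ) : AnalyticOnNhd ℂ (D n) (ball (0 : ℂ) 1) :=
  DifferentiableOn.analyticOnNhd (fun _ hz => (hD n hz).differentiableAt.differentiableWithinAt)
    isOpen_ball

/-- growth off the bisector -/
lemma grow {a b : ℂ} {r : ℝ} (hr : r < 1) (ha : 1 / 2 ≤ ‖a‖) (hb : ‖b‖ ≤ r * ‖a‖) (n : ℕ) :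
    (n.factorial : ℝ) * (1 / 2) ^ (n + 1) * (1 - r) ≤
      ‖(n.factorial : ℂ) * (a ^ (n + 1) - b ^ (n + 1))‖ := by
  have hr0 : 0 ≤ r := by
    by_contra h
    have : r * ‖a‖ < 0 := mul_neg_of_neg_of_pos (lt_of_not_ge h) (by linarith)
    linarith [norm_nonneg b]
  rw [norm_mul, Complex.norm_natCast, mul_assoc]
  refine mul_le_mul_of_nonneg_left ?_ (by positivity)
  have h1 : ‖b‖ ^ (n + 1) ≤ r * ‖a‖ ^ (n + 1) := by
    calc ‖b‖ ^ (n + 1) ≤ (r * ‖a‖) ^ (n + 1) := by gcongr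
      _ = r ^ n * (r * ‖a‖ ^ (n + 1)) := by ring
      _ ≤ 1 * (r * ‖a‖ ^ (n + 1)) := by
        gcongr
        exact pow_le_one₀ hr0 hr.le
      _ = _ := one_mul _
  have h2 := norm_sub_norm_le (a ^ (n + 1)) (b ^ (n + 1))
  rw [norm_pow, norm_pow] at h2
  have h3 : (1 / 2 : ℝ) ^ (n + 1) ≤ ‖a‖ ^ (n + 1) := by gcongr
  nlinarith

lemma tend {r : ℝ} (hr : r < 1) :
    Tendsto (fun n : ℕ => (n.factorial : ℝ) * (1 / 2) ^ (n + 1) * (1 - r)) atTop atTop := by
  refine Tendsto.atTop_mul_const (by linarith) ?_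
  have h := FloorSemiring.tendsto_pow_div_factorial_atTop (K := ℝ) 2
  have h2 : Tendsto (fun n : ℕ => ((2 : ℝ) ^ n / n.factorial)⁻¹) atTop atTop := by
    refine Tendsto.inv_tendsto_nhdsGT_zero (tendsto_nhdsWithin_iff.2 ⟨h, Eventually.of_forall fun n => ?_⟩)
    have := n.factorial_pos
    simp only [mem_Ioi]; positivity
  have h3 := h2.atTop_mul_const (show (0 : ℝ) < 1 / 2 by norm_num)
  refine h3.congr fun n => ?_
  have := n.factorial_pos
  rw [pow_succ, one_div, inv_pow]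
  field_simp

lemma inv_norm {z c : ℂ} (hc : ‖c‖ = 1) (hz : z ∈ ball (0 : ℂ) 1) (h : c - z ≠ 0) :
    1 / 2 ≤ ‖(c - z)⁻¹‖ := by
  rw [norm_inv, one_div]
  have h1 : ‖c - z‖ ≤ 2 := by
    have := norm_sub_le c z
    simp at hz; linarith
  exact inv_anti₀ (norm_pos_iff.2 h) h1

/-- normality where one pole dominates -/
lemma normal {N : Set ℂ} (hN : N ⊆ ball (0 : ℂ) 1) {r : ℝ} (hr : r < 1)
    (h : ∀ n, ∀ z ∈ N, (n.factorial : ℝ) * (1 / 2) ^ (n + 1) * (1 - r) ≤ ‖D n z‖) :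
    NormalOn (range fun n : ℕ => iteratedDeriv n f) N := by
  intro F hF
  choose m hm using hF
  by_cases hb : Tendsto m atTop atTop
  · refine ⟨id, strictMono_id, Or.inr fun K hK _ R => ?_⟩
    filter_upwards [((tend hr).comp hb).eventually_ge_atTop R] with k hk z hz
    have : F k z = D (m k) z := by rw [← hm k]; exact iter _ z (hN (hK hz))
    simp only [id, this]
    exact hk.trans (h _ z (hK hz))
  · have : ∃ n, ∃ᶠ k in atTop, m k = n := by
      by_contra hc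
      push Not at hc
      apply hb
      refine tendsto_atTop.2 fun b => ?_
      have : ∀ᶠ k in atTop, ∀ n ∈ Finset.range b, m k ≠ n :=
        (eventually_all_finset _).2 fun n _ => hc n
      filter_upwards [this] with k hk
      by_contra hlt
      exact hk (m k) (Finset.mem_range.2 (lt_of_not_ge hlt)) rfl
    obtain ⟨n, hn⟩ := this
    obtain ⟨φ, hφ, hφn⟩ := extraction_of_frequently_atTop hn
    refine ⟨φ, hφ, Or.inl ⟨D n, (anD n).mono hN, fun K hK _ => ?_⟩⟩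
    refine (tendstoUniformlyOn_iff.2 fun ε hε => Eventually.of_forall fun k z hz => ?_)
    have : F (φ k) z = D n z := by rw [← hm, hφn]; exact iter _ z (hN (hK hz))
    simpa [this] using hε

lemma right_grow {z : ℂ} (hz : z ∈ ball (0 : ℂ) 1) {r : ℝ} (hr : r < 1)
    (h : ‖1 - z‖ ≤ r * ‖-1 - z‖) (n : ℕ) :
    (n.factorial : ℝ) * (1 / 2) ^ (n + 1) * (1 - r) ≤ ‖D n z‖ := by
  refine grow hr (inv_norm (by simp) hz (ne1 hz)) ?_ n
  have h1 := norm_pos_iff.2 (ne1 hz)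
  have h2 := norm_pos_iff.2 (ne2 hz)
  rw [norm_inv, norm_inv, ← div_eq_mul_inv, le_div_iff₀ h1, inv_mul_le_iff₀ h2]
  linarith

lemma left_grow {z : ℂ} (hz : z ∈ ball (0 : ℂ) 1) {r : ℝ} (hr : r < 1)
    (h : ‖-1 - z‖ ≤ r * ‖1 - z‖) (n : ℕ) :
    (n.factorial : ℝ) * (1 / 2) ^ (n + 1) * (1 - r) ≤ ‖D n z‖ := by
  have := grow (a := (-1 - z)⁻¹) (b := (1 - z)⁻¹) hr (inv_norm (by simp) hz (ne2 hz)) ?_ n
  · rw [D, norm_mul, norm_sub_rev, ← norm_mul]; exact this
  have h1 := norm_pos_iff.2 (ne1 hz)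
  have h2 := norm_pos_iff.2 (ne2 hz)
  rw [norm_inv, norm_inv, ← div_eq_mul_inv, le_div_iff₀ h2, inv_mul_le_iff₀ h1]
  linarith

lemma mem_right : (1 / 2 : ℂ) ∈ MacLane (ball 0 1) f := by
  have hs : ball (1 / 2 : ℂ) (1 / 4) ⊆ ball 0 1 := ball_subset_ball' (by norm_num)
  refine ⟨ball (1 / 2) (1 / 4), isOpen_ball, mem_ball_self (by norm_num), hs,
    normal hs (r := 3 / 5) (by norm_num) fun n z hz => right_grow (hs hz) (by norm_num) ?_ n⟩
  rw [mem_ball, dist_eq_norm] at hz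
  have h1 := norm_sub_le (1 / 2 : ℂ) (z - 1 / 2)
  have h2 := norm_sub_norm_le (-(3 / 2) : ℂ) (z - 1 / 2)
  have e1 : (1 / 2 : ℂ) - (z - 1 / 2) = 1 - z := by ring
  have e2 : (-(3 / 2) : ℂ) - (z - 1 / 2) = -1 - z := by ring
  rw [e1] at h1; rw [e2] at h2
  norm_num at h1 h2 hz ⊢
  linarith

lemma mem_left : (-(1 / 2) : ℂ) ∈ MacLane (ball 0 1) f := by
  have hs : ball (-(1 / 2) : ℂ) (1 / 4) ⊆ ball 0 1 := ball_subset_ball' (by norm_num)
  refine ⟨ball (-(1 / 2)) (1 / 4), isOpen_ball, mem_ball_self (by norm_num), hs,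
    normal hs (r := 3 / 5) (by norm_num) fun n z hz => left_grow (hs hz) (by norm_num) ?_ n⟩
  rw [mem_ball, dist_eq_norm] at hz
  have h1 := norm_sub_le (-(1 / 2) : ℂ) (z - -(1 / 2))
  have h2 := norm_sub_norm_le ((3 / 2) : ℂ) (z - -(1 / 2))
  have e1 : (-(1 / 2) : ℂ) - (z - -(1 / 2)) = -1 - z := by ring
  have e2 : ((3 / 2) : ℂ) - (z - -(1 / 2)) = 1 - z := by ring
  rw [e1] at h1; rw [e2] at h2
  norm_num at h1 h2 hz ⊢
  linarith

/-- explicit zeros on the bisector -/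
lemma zero (n : ℕ) (j : ℤ) (t : ℝ) (hc : Real.cos t ≠ 0)
    (ht : t = Real.pi * j / (n + 1) - Real.pi / 2) :
    D n (Complex.I * Real.tan t) = 0 := by
  have hc' : (Complex.cos t) ≠ 0 := by exact_mod_cast hc
  have e1 : 1 - Complex.I * Real.tan t = Complex.exp (-t * Complex.I) / Complex.cos t := by
    rw [Complex.ofReal_tan, Complex.tan_eq_sin_div_cos, Complex.exp_mul_I, Complex.cos_neg,
      Complex.sin_neg]
    field_simp
    ring
  have e2 : -1 - Complex.I * Real.tan t = Complex.exp ((t + Real.pi) * Complex.I) / Complex.cos t := by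
    rw [Complex.ofReal_tan, Complex.tan_eq_sin_div_cos, Complex.exp_mul_I, Complex.cos_add_pi,
      Complex.sin_add_pi]
    field_simp
    ring
  have e3 : Complex.exp ((t + Real.pi) * Complex.I) ^ (n + 1) = Complex.exp (-t * Complex.I) ^ (n + 1) := by
    rw [← Complex.exp_nat_mul, ← Complex.exp_nat_mul, Complex.exp_eq_exp_iff_exists_int]
    refine ⟨j, ?_⟩
    have hn : (n : ℂ) + 1 ≠ 0 := by exact_mod_cast Nat.succ_ne_zero n
    rw [ht]; push_cast
    field_simp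
    ring
  rw [D, e1, e2, inv_pow, inv_pow, div_pow, div_pow, e3, sub_self, mul_zero]

lemma not_mem {z : ℂ} (hz : z.re = 0) : z ∉ MacLane (ball 0 1) f := by
  rintro ⟨N, hN, hzN, hNG, hn⟩
  obtain ⟨φ, hφ, h | h⟩ := hn (fun n => iteratedDeriv n f) fun k => ⟨k, rfl⟩
  · obtain ⟨g, -, hg⟩ := h
    have : ∀ᶠ t : ℝ in 𝓝[>] 0, z + t ∈ N := by
      refine nhdsWithin_le_nhds (ContinuousAt.preimage_mem_nhds (f := fun t : ℝ => z + t) (by fun_prop) ?_)
      simpa using hN.mem_nhds hzN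
    obtain ⟨t, htN, ht⟩ := (this.and self_mem_nhdsWithin).exists
    have ht : 0 < t := ht
    set w := z + t with hw
    have hwb := hNG htN
    have h2 := norm_pos_iff.2 (ne2 hwb)
    have hlt : ‖1 - w‖ < ‖-1 - w‖ := by
      have hre : w.re = t := by simp [hw, hz]
      rw [← sq_lt_sq₀ (norm_nonneg _) (norm_nonneg _), Complex.sq_norm, Complex.sq_norm,
        Complex.normSq_apply, Complex.normSq_apply]
      simp only [Complex.sub_re, Complex.sub_im, Complex.one_re, Complex.one_im, Complex.neg_re,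
        Complex.neg_im, hre]
      nlinarith
    have hr : ‖1 - w‖ / ‖-1 - w‖ < 1 := (div_lt_one h2).2 hlt
    have h3 := ((hg {w} (singleton_subset_iff.2 htN) isCompact_singleton).tendsto_at rfl).norm
    have h4 : Tendsto (fun k => ‖iteratedDeriv (φ k) f w‖) atTop atTop := by
      refine tendsto_atTop_mono (fun k => ?_) ((tend hr).comp hφ.tendsto_atTop)
      rw [iter _ w hwb]
      exact right_grow hwb hr (by rw [div_mul_cancel₀ _ h2.ne']) _
    exact not_tendsto_atTop_of_tendsto_nhds h3 h4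
  · set t₀ := Real.arctan z.im with ht₀
    have hc₀ : Real.cos t₀ ≠ 0 := (Real.cos_arctan_pos _).ne'
    have hz' : Complex.I * Real.tan t₀ = z := by
      rw [ht₀, Real.tan_arctan]; apply Complex.ext <;> simp [hz]
    have hca : ∀ t, Real.cos t ≠ 0 → ContinuousAt (fun t : ℝ => Complex.I * Real.tan t) t :=
      fun t ht => continuousAt_const.mul
        (Complex.continuous_ofReal.continuousAt.comp (Real.continuousAt_tan.2 ht))
    have : ∀ᶠ t : ℝ in 𝓝 t₀, Real.cos t ≠ 0 ∧ Complex.I * Real.tan t ∈ N := by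
      refine (Real.continuous_cos.continuousAt.eventually_ne hc₀).and
        ((hca t₀ hc₀).preimage_mem_nhds ?_)
      rw [hz']; exact hN.mem_nhds hzN
    obtain ⟨δ, hδ, hb⟩ := Metric.nhds_basis_closedBall.eventually_iff.1 this
    have hK := h ((fun t : ℝ => Complex.I * Real.tan t) '' closedBall t₀ δ)
      (by rintro _ ⟨t, ht, rfl⟩; exact (hb ht).2)
      ((isCompact_closedBall _ _).image_of_continuousOn fun t ht =>
        (hca t (hb ht).1).continuousWithinAt) 1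
    have h5 : ∀ᶠ k in atTop, Real.pi / δ ≤ (φ k : ℝ) :=
      (tendsto_natCast_atTop_atTop.comp hφ.tendsto_atTop).eventually_ge_atTop _
    obtain ⟨k, hk, hk5⟩ := (hK.and h5).exists
    set n := φ k
    have hπ := Real.pi_pos
    have hn1 : (0 : ℝ) < n + 1 := by positivity
    set j : ℤ := ⌈(t₀ + Real.pi / 2) * (n + 1) / Real.pi⌉
    have hj1 : (t₀ + Real.pi / 2) * (n + 1) / Real.pi ≤ j := Int.le_ceil _
    have hj2 : (j : ℝ) < (t₀ + Real.pi / 2) * (n + 1) / Real.pi + 1 := Int.ceil_lt_add_one _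
    have hmem : Real.pi * j / (n + 1) - Real.pi / 2 ∈ closedBall t₀ δ := by
      rw [div_le_iff₀ hπ] at hj1
      rw [div_add_one hπ.ne', lt_div_iff₀ hπ] at hj2
      rw [div_le_iff₀ hδ] at hk5
      rw [mem_closedBall, Real.dist_eq, abs_le]
      constructor
      · have : t₀ + Real.pi / 2 ≤ Real.pi * j / (n + 1) := by rw [le_div_iff₀ hn1]; linarith
        linarith
      · have : Real.pi * j / (n + 1) ≤ t₀ + Real.pi / 2 + δ := by rw [div_le_iff₀ hn1]; nlinarith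
        linarith
    have h6 := hk _ ⟨_, hmem, rfl⟩
    rw [iter _ _ (hNG (hb hmem).2), zero n j _ (hb hmem).1 rfl] at h6
    norm_num at h6

lemma not_conn : ¬ IsPreconnected (MacLane (ball 0 1) f) := by
  intro h
  have h1 := h.intermediate_value mem_left mem_right Complex.continuous_re.continuousOn
  obtain ⟨z, hz, hz0⟩ := h1 (show (0 : ℝ) ∈ _ by constructor <;> norm_num)
  exact not_mem hz0 hz

theorem result : ∃ (G : Set ℂ) (f : ℂ → ℂ), IsOpen G ∧ IsConnected G ∧ SimplyConnectedSpace G ∧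
    AnalyticOnNhd ℂ f G ∧ (MacLane G f).Nonempty ∧ ¬ IsPreconnected (MacLane G f) ∧
    ¬ SimplyConnectedSpace (MacLane G f) := by
  refine ⟨ball 0 1, f, isOpen_ball, (convex_ball _ _).isConnected ⟨0, by simp⟩, ?_, ?_,
    ⟨_, mem_right⟩, not_conn, fun h => not_conn ?_⟩
  · have := (convex_ball (0 : ℂ) 1).contractibleSpace ⟨0, by simp⟩
    infer_instance
  · have : f = D 0 := by funext z; simp [f, D]
    rw [this]; exact anD 0
  · exact isPreconnected_iff_preconnectedSpace.2 inferInstance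

end Pool.Agent.Results.MP_b969c4_an.Disconnected
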